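import Pool.Agent.helper37.CZ.Spec

set_option autoImplicit false

open scoped Matrix Topology ComplexConjugate
open Filter

namespace Pool.Agent.CZ

/-- matrices with entries in a subring -/
def SMI_T {R : Type} [Ring R] (n : ℕ) (S : Subring R) : Subring (Matrix (Fin n) (Fin n) R) where
  carrier := {M | ∀ i j, M i j ∈ S}
  mul_mem' := by
    intro a b ha hb i j
    rw [Matrix.mul_apply]
    exact S.sum_mem (fun k _ => S.mul_mem (ha i k) (hb k j))
  one_mem' := by
    intro i j
    rw [Matrix.one_apply]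
    split_ifs
    exacts [S.one_mem, S.zero_mem]
  add_mem' := fun ha hb i j => S.add_mem (ha i j) (hb i j)
  zero_mem' := fun _ _ => S.zero_mem
  neg_mem' := fun ha i j => S.neg_mem (ha i j)

section
attribute [local instance] Matrix.linftyOpNormedRing

def SMI_CS (B : Type) [NormedRing B] : Prop := CompleteSpace B

theorem SMI_complete (n : ℕ) (B : Type) [NormedRing B] [CompleteSpace B] :
    SMI_CS (Matrix (Fin n) (Fin n) B) := by
  unfold SMI_CS
  exact (inferInstance : CompleteSpace (Matrix (Fin n) (Fin n) B))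

theorem SMI_closed {R : Type} [NormedRing R] (n : ℕ) (S : Subring R) (hS : IsClosed (S : Set R)) :
    IsClosed ((SMI_T n S : Subring (Matrix (Fin n) (Fin n) R)) : Set (Matrix (Fin n) (Fin n) R)) := by
  have h : ((SMI_T n S : Subring (Matrix (Fin n) (Fin n) R)) : Set (Matrix (Fin n) (Fin n) R)) =
      ⋂ i, ⋂ j, (fun M : Matrix (Fin n) (Fin n) R => M i j) ⁻¹' (S : Set R) := by
    ext M
    simp only [Set.mem_iInter, Set.mem_preimage, SetLike.mem_coe]
    exact Iff.rfl
  rw [h]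
  refine isClosed_iInter (fun i => isClosed_iInter (fun j => hS.preimage ?_))
  exact Continuous.matrix_elem continuous_id i j

theorem SMI_entry (n : ℕ) (B : Type) [NormedRing B] (M : Matrix (Fin n) (Fin n) B) (i j : Fin n) : ‖M i j‖ ≤ ‖M‖ := by
  have h1 : ‖M i j‖₊ ≤ ∑ j, ‖M i j‖₊ :=
    Finset.single_le_sum (f := fun j => ‖M i j‖₊) (fun _ _ => bot_le) (Finset.mem_univ j)
  have h2 : ∑ j, ‖M i j‖₊ ≤ ‖M‖₊ := by
    rw [Matrix.linfty_opNNNorm_def]
    exact Finset.le_sup (f := fun i => ∑ j, ‖M i j‖₊) (Finset.mem_univ i)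
  exact_mod_cast h1.trans h2

theorem SMI_le (n : ℕ) (B : Type) [NormedRing B] (M : Matrix (Fin n) (Fin n) B) (r : ℝ) (hr : 0 ≤ r)
    (h : ∀ i j, ‖M i j‖ ≤ r) : ‖M‖ ≤ n * r := by
  rw [Matrix.linfty_opNorm_def]
  obtain ⟨r', rfl⟩ : ∃ r' : NNReal, (r' : ℝ) = r := ⟨⟨r, hr⟩, rfl⟩
  have : (Finset.univ.sup fun i => ∑ j, ‖M i j‖₊) ≤ n * r' := by
    apply Finset.sup_le
    intro i _
    calc ∑ j, ‖M i j‖₊ ≤ ∑ _j : Fin n, r' := Finset.sum_le_sum (fun j _ => by exact_mod_cast h i j)
      _ = n * r' := by rw [Finset.sum_const, Finset.card_univ, Fintype.card_fin, nsmul_eq_mul]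
  exact_mod_cast this

theorem SMI (h1 : SMA_stmt) (h2 : TR1_stmt) (h3 : TR2_stmt) (h4 : NEW_stmt) : SMI_stmt := by
  intro X _ _ α A _ ι u c hc n e he ε hε
  obtain ⟨m1, m2, -, m4, m5⟩ := h1 X A ι u
  -- smooth elements are dense
  have hdense : ∀ (b : A) (η : ℝ), 0 < η → ∃ a, Sm ι u a ∧ ‖b - a‖ < η := by
    intro b η hη
    obtain ⟨y, hy, hd⟩ := hc.dense.exists_dist_lt b hη
    refine ⟨y, ?_, by rwa [dist_eq_norm] at hd⟩
    refine Submodule.span_induction (p := fun a _ => Sm ι u a) ?_ m2 ?_ ?_ hy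
    · rintro a ⟨f, k, rfl⟩
      exact m1 f k
    · intro a b _ _ ha hb
      exact m4 a b ha hb
    · intro z a _ ha
      exact m5 z a ha
  set e' : Matrix (Fin n) (Fin n) (A × A × A) := fun i j => (e i j, e i j, e i j) with he'
  have hee : e' * e' = e' := by
    ext i j
    · rw [Matrix.mul_apply, Prod.fst_sum]
      have := congrFun (congrFun he i) j
      rw [Matrix.mul_apply] at this
      exact this
    · rw [Matrix.mul_apply, Prod.snd_sum, Prod.fst_sum]
      have := congrFun (congrFun he i) j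
      rw [Matrix.mul_apply] at this
      exact this
    · rw [Matrix.mul_apply, Prod.snd_sum, Prod.snd_sum]
      have := congrFun (congrFun he i) j
      rw [Matrix.mul_apply] at this
      exact this
  set K : ℝ := ‖e'‖ with hK
  have hK0 : 0 ≤ K := norm_nonneg _
  have hcomp : SMI_CS (Matrix (Fin n) (Fin n) (A × A × A)) := SMI_complete n (A × A × A)
  obtain ⟨δ, hδ, hnew⟩ := @h4 (Matrix (Fin n) (Fin n) (A × A × A)) _ hcomp (K + 1) (ε / 2) (by positivity)
  set θ : ℝ := min 1 (min (δ / (2 * K + 2)) (ε / 4)) with hθ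
  have hθ0 : 0 < θ := by
    rw [hθ]
    refine lt_min one_pos (lt_min (by positivity) (by positivity))
  have hθ1 : θ ≤ 1 := min_le_left _ _
  have hθ2 : θ * (2 * K + 2) ≤ δ := by
    have : θ ≤ δ / (2 * K + 2) := (min_le_right _ _).trans (min_le_left _ _)
    rwa [le_div_iff₀ (by positivity)] at this
  have hθ3 : θ ≤ ε / 4 := (min_le_right _ _).trans (min_le_right _ _)
  set η : ℝ := θ / (2 * (n + 1)) with hη
  have hη0 : 0 < η := by positivity
  have hη1 : (n : ℝ) * (2 * η) ≤ θ := by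
    rw [hη]
    have : (n : ℝ) * (2 * (θ / (2 * (n + 1)))) = θ * (n / (n + 1)) := by
      field_simp
    rw [this]
    have h5 : (n : ℝ) / (n + 1) ≤ 1 := by
      rw [div_le_one (by positivity)]
      linarith
    calc θ * (n / (n + 1)) ≤ θ * 1 := mul_le_mul_of_nonneg_left h5 hθ0.le
      _ = θ := mul_one _
  -- smooth matrix
  choose a ha had using fun i j : Fin n => hdense (e i j) η hη0
  choose s0 G hs0 hGm hGt using fun i j : Fin n => h3 X A ι u (a i j) (ha i j)
  have hev : ∀ᶠ s in 𝓝[>] (0 : ℝ), ∀ i j : Fin n, 0 < s ∧ s < s0 i j ∧ ‖G i j s - a i j‖ < η ∧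
      ‖G i j (-s) - a i j‖ < η := by
    rw [Filter.eventually_all]
    intro i
    rw [Filter.eventually_all]
    intro j
    have c1 : ∀ᶠ s in 𝓝[>] (0 : ℝ), 0 < s := eventually_mem_nhdsWithin
    have c2 : ∀ᶠ s in 𝓝[>] (0 : ℝ), s < s0 i j :=
      nhdsWithin_le_nhds (eventually_lt_nhds (hs0 i j))
    have c3 : ∀ᶠ s in 𝓝 (0 : ℝ), ‖G i j s - a i j‖ < η := by
      have := (Metric.tendsto_nhds.1 (hGt i j)) η hη0
      refine this.mono (fun s hs => ?_)
      rwa [dist_eq_norm] at hs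
    have c4 : ∀ᶠ s in 𝓝 (0 : ℝ), ‖G i j (-s) - a i j‖ < η := by
      have h0 : Tendsto (fun s : ℝ => -s) (𝓝 0) (𝓝 0) := by
        have := (continuous_neg (G := ℝ)).tendsto 0
        rwa [neg_zero] at this
      exact h0.eventually c3
    filter_upwards [c1, c2, nhdsWithin_le_nhds c3, nhdsWithin_le_nhds c4] with s d1 d2 d3 d4
    exact ⟨d1, d2, d3, d4⟩
  obtain ⟨s, hs, hspos⟩ := (hev.and (eventually_mem_nhdsWithin (a := (0 : ℝ)) (s := Set.Ioi 0))).exists
  have hspos' : 0 < s := hspos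
  set a' : Matrix (Fin n) (Fin n) (A × A × A) := fun i j => (a i j, G i j s, G i j (-s)) with ha'
  have hd : ‖a' - e'‖ ≤ θ := by
    refine (SMI_le n _ (a' - e') (2 * η) (by positivity) ?_).trans hη1
    intro i j
    obtain ⟨-, -, d3, d4⟩ := hs i j
    have d5 := had i j
    have d6 : ‖a i j - e i j‖ < η := by rwa [norm_sub_rev]
    have t1 : ‖a i j - e i j‖ ≤ 2 * η := by linarith
    have t2 : ‖G i j s - e i j‖ ≤ 2 * η := by
      have : G i j s - e i j = (G i j s - a i j) + (a i j - e i j) := by abel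
      rw [this]
      refine (norm_add_le _ _).trans ?_
      linarith
    have t3 : ‖G i j (-s) - e i j‖ ≤ 2 * η := by
      have : G i j (-s) - e i j = (G i j (-s) - a i j) + (a i j - e i j) := by abel
      rw [this]
      refine (norm_add_le _ _).trans ?_
      linarith
    exact norm_prod_le_iff.2 ⟨t1, norm_prod_le_iff.2 ⟨t2, t3⟩⟩
  have hnorm : ‖a'‖ ≤ K + 1 := by
    have : a' = e' + (a' - e') := by abel
    rw [this]
    refine (norm_add_le _ _).trans ?_
    linarith
  have hsq : ‖a' * a' - a'‖ ≤ δ := by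
    have e1 : a' * a' - a' = (a' - e') * a' + e' * (a' - e') - (a' - e') := by
      rw [sub_mul, mul_sub, hee]
      abel
    rw [e1]
    refine (norm_sub_le _ _).trans ?_
    refine (add_le_add (norm_add_le _ _) le_rfl).trans ?_
    have e2 : ‖(a' - e') * a'‖ ≤ θ * (K + 1) :=
      (norm_mul_le _ _).trans (mul_le_mul hd hnorm (norm_nonneg _) hθ0.le)
    have e3 : ‖e' * (a' - e')‖ ≤ K * θ :=
      (norm_mul_le _ _).trans (mul_le_mul le_rfl hd (norm_nonneg _) hK0)
    nlinarith [e2, e3, hd, hθ2]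
  have hcl : IsClosed ((Tri ι u s).toSubring : Set (A × A × A)) := by
    have := Subalgebra.isClosed_topologicalClosure (Algebra.adjoin ℂ {t : A × A × A | ∃ (f : C(X, ℂ)) (j : ℤ), t = (ι f * up u j,
      ((Real.exp (s * j) : ℝ) : ℂ) • (ι f * up u j),
      ((Real.exp (-(s * j)) : ℝ) : ℂ) • (ι f * up u j))})
    exact this
  have hmem : a' ∈ SMI_T n (Tri ι u s).toSubring := by
    intro i j
    exact hGm i j s hspos' (hs i j).2.1
  obtain ⟨f', hf'T, hf'f', hf'a'⟩ := hnew (SMI_T n (Tri ι u s).toSubring) (SMI_closed n _ hcl) a' hmem hnorm hsq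
  obtain ⟨f, hf⟩ : ∃ f : Matrix (Fin n) (Fin n) A, ∀ i j, f i j = (f' i j).1 := ⟨fun i j => (f' i j).1, fun _ _ => rfl⟩
  refine ⟨f, ?_, ?_, ?_⟩
  · ext i j
    rw [Matrix.mul_apply, hf i j]
    have := congrArg Prod.fst (congrFun (congrFun hf'f' i) j)
    rw [Matrix.mul_apply, Prod.fst_sum] at this
    rw [← this]
    apply Finset.sum_congr rfl
    intro k _
    rw [hf i k, hf k j]
    rfl
  · intro i j
    rw [hf i j]
    exact h2 X α A ι u c hc s hspos' (f' i j) (hf'T i j)
  · intro i j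
    have r1 : ‖e' - f'‖ ≤ θ + ε / 2 := by
      have : e' - f' = -(a' - e') - (f' - a') := by abel
      rw [this]
      refine (norm_sub_le _ _).trans ?_
      rw [norm_neg]
      linarith
    have r2 : ‖(e' - f') i j‖ ≤ ‖e' - f'‖ := SMI_entry n _ (e' - f') i j
    have r3 : ‖((e' - f') i j).1‖ ≤ ‖(e' - f') i j‖ := norm_fst_le _
    have r4 : ((e' - f') i j).1 = e i j - (f' i j).1 := rfl
    rw [r4] at r3
    rw [hf i j]
    linarith

end

end Pool.Agent.CZ
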