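import Pool.Agent.helper37.CZ.Spec

set_option autoImplicit false

open scoped Matrix Topology ComplexConjugate
open Filter

namespace Pool.Agent.CZ

theorem TRC_pow_succ {X : Type} [TopologicalSpace X] (α : X ≃ₜ X) (i : ℕ) (x : X) :
    (α ^ (i + 1)) x = (α ^ i) (α x) := by
  rw [pow_succ]
  rfl

theorem TRC_zpow_neg_apply {X : Type} [TopologicalSpace X] (α : X ≃ₜ X) (n : ℤ) (x : X) :
    (α ^ n) ((α ^ (-n)) x) = x := by
  have h : (α ^ n * α ^ (-n)) x = x := by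
    rw [← zpow_add, add_neg_cancel, zpow_zero]
    rfl
  exact h

/-- the norm of a composition with a homeomorphism -/
theorem TRC_norm_comp {X : Type} [TopologicalSpace X] [CompactSpace X] (β : X ≃ₜ X) (k : C(X, ℂ)) :
    ‖k.comp (β : C(X, X))‖ ≤ ‖k‖ := by
  rw [ContinuousMap.norm_le _ (norm_nonneg k)]
  intro x
  exact k.norm_coe_le_norm _

/-- the coboundary for positive powers -/
theorem TRC_nat {X : Type} [TopologicalSpace X] [CompactSpace X] (α : X ≃ₜ X) (k : C(X, ℂ)) (n : ℕ) :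
    ∃ g : C(X, ℂ), (∀ x, k ((α ^ n) x) - k x = g (α x) - g x) ∧ ‖g‖ ≤ n * ‖k‖ := by
  refine ⟨∑ i ∈ Finset.range n, k.comp ((α ^ i : X ≃ₜ X) : C(X, X)), ?_, ?_⟩
  · intro x
    rw [ContinuousMap.coe_sum, Finset.sum_apply, Finset.sum_apply, ← Finset.sum_sub_distrib]
    have h := Finset.sum_range_sub (fun i => k ((α ^ i) x)) n
    rw [pow_zero] at h
    have h0 : k ((1 : X ≃ₜ X) x) = k x := rfl
    rw [h0] at h
    rw [← h]
    apply Finset.sum_congr rfl
    intro i _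
    rw [TRC_pow_succ]
    rfl
  · refine (norm_sum_le _ _).trans ?_
    refine (Finset.sum_le_sum (fun i _ => TRC_norm_comp (α ^ i) k)).trans ?_
    rw [Finset.sum_const, Finset.card_range, nsmul_eq_mul]

theorem TRC_int {X : Type} [TopologicalSpace X] [CompactSpace X] (α : X ≃ₜ X) (k : C(X, ℂ)) (n : ℤ) :
    ∃ g : C(X, ℂ), (∀ x, k ((α ^ (-n)) x) - k x = g (α x) - g x) ∧ ‖g‖ ≤ |(n : ℝ)| * ‖k‖ := by
  rcases Int.eq_nat_or_neg n with ⟨m, rfl | rfl⟩
  · obtain ⟨g, hg, hn⟩ := TRC_nat α (k.comp ((α ^ (-(m : ℤ)) : X ≃ₜ X) : C(X, X))) m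
    refine ⟨-g, ?_, ?_⟩
    · intro x
      have h := hg x
      have h1 : (k.comp ((α ^ (-(m : ℤ)) : X ≃ₜ X) : C(X, X))) x = k ((α ^ (-(m : ℤ))) x) := rfl
      have h2 : (k.comp ((α ^ (-(m : ℤ)) : X ≃ₜ X) : C(X, X))) ((α ^ m) x) = k x := by
        have h3 : (α ^ (-(m : ℤ))) ((α ^ (m : ℤ)) x) = x := by
          have h4 := TRC_zpow_neg_apply α (-(m : ℤ)) x
          rw [neg_neg] at h4
          exact h4
        rw [zpow_natCast] at h3
        change k ((α ^ (-(m : ℤ))) ((α ^ m) x)) = k x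
        rw [h3]
      rw [h1, h2] at h
      rw [ContinuousMap.neg_apply, ContinuousMap.neg_apply]
      linear_combination -h
    · rw [norm_neg]
      refine hn.trans ?_
      have h5 : |((m : ℤ) : ℝ)| = (m : ℝ) := by
        rw [Int.cast_natCast]
        exact abs_of_nonneg (Nat.cast_nonneg m)
      rw [h5]
      exact mul_le_mul_of_nonneg_left (TRC_norm_comp _ k) (Nat.cast_nonneg m)
  · obtain ⟨g, hg, hn⟩ := TRC_nat α k m
    refine ⟨g, ?_, ?_⟩
    · intro x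
      rw [neg_neg, zpow_natCast]
      exact hg x
    · have h5 : |((-(m : ℤ) : ℤ) : ℝ)| = (m : ℝ) := by
        rw [Int.cast_neg, abs_neg, Int.cast_natCast]
        exact abs_of_nonneg (Nat.cast_nonneg m)
      rw [h5]
      exact hn

theorem TRC_summable (s : ℝ) (hs : 0 < s) : Summable (fun m : ℤ => |(m : ℝ)| * Real.exp (-(s * |(m : ℝ)|))) := by
  have h := Real.summable_pow_mul_exp_neg_nat_mul 1 hs
  apply Summable.of_nat_of_neg
  · refine h.congr ?_
    intro n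
    rw [Int.cast_natCast, abs_of_nonneg (Nat.cast_nonneg n : (0 : ℝ) ≤ n), pow_one, neg_mul]
  · refine h.congr ?_
    intro n
    rw [Int.cast_neg, abs_neg, Int.cast_natCast, abs_of_nonneg (Nat.cast_nonneg n : (0 : ℝ) ≤ n), pow_one, neg_mul]

theorem TRC (h1 : SMM_stmt) (h2 : SMC_stmt) : TRC_stmt := by
  intro X _ _ α A _ ι u c hc a b ha hb
  obtain ⟨-, hab⟩ := h1 X α A ι u c hc a b ha hb
  obtain ⟨-, hba⟩ := h1 X α A ι u c hc b a hb ha
  obtain ⟨s, hs, f, ⟨C, hf⟩, hra⟩ := ha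
  obtain ⟨s', hs', g, ⟨C', hg⟩, hrb⟩ := hb
  have hfa := h2 X α A ι u c hc f a hra
  have hgb := h2 X α A ι u c hc g b hrb
  have hC : 0 ≤ C := by
    have := hf 0
    have h0 := norm_nonneg (f 0)
    simp only [Int.cast_zero, abs_zero, mul_zero, neg_zero, Real.exp_zero, mul_one] at this
    linarith
  have hC' : 0 ≤ C' := by
    have := hg 0
    have h0 := norm_nonneg (g 0)
    simp only [Int.cast_zero, abs_zero, mul_zero, neg_zero, Real.exp_zero, mul_one] at this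
    linarith
  set k : ℤ → C(X, ℂ) := fun m => g (-m) * (f m).comp ((α ^ m : X ≃ₜ X) : C(X, X)) with hk
  have hkn : ∀ m, ‖k m‖ ≤ C' * C * Real.exp (-(s * |(m : ℝ)|)) := by
    intro m
    have e1 : ‖k m‖ ≤ ‖g (-m)‖ * ‖(f m).comp ((α ^ m : X ≃ₜ X) : C(X, X))‖ := norm_mul_le _ _
    have e2 : ‖g (-m)‖ ≤ C' := by
      refine (hg (-m)).trans ?_
      have : Real.exp (-(s' * |((-m : ℤ) : ℝ)|)) ≤ 1 := by
        rw [Real.exp_le_one_iff]
        have := mul_nonneg hs'.le (abs_nonneg ((-m : ℤ) : ℝ))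
        linarith
      calc C' * Real.exp (-(s' * |((-m : ℤ) : ℝ)|)) ≤ C' * 1 := mul_le_mul_of_nonneg_left this hC'
        _ = C' := mul_one _
    have e3 : ‖(f m).comp ((α ^ m : X ≃ₜ X) : C(X, X))‖ ≤ C * Real.exp (-(s * |(m : ℝ)|)) :=
      (TRC_norm_comp _ _).trans (hf m)
    refine e1.trans ?_
    rw [mul_assoc]
    exact mul_le_mul e2 e3 (norm_nonneg _) hC'
  have hch : ∀ m : ℤ, ∃ gg : C(X, ℂ), (∀ x, k m ((α ^ (-m)) x) - k m x = gg (α x) - gg x) ∧ ‖gg‖ ≤ |(m : ℝ)| * ‖k m‖ :=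
    fun m => TRC_int α (k m) m
  choose gg hgg hggn using hch
  have hsum : Summable gg := by
    have h3 := (TRC_summable s hs).mul_left (C' * C)
    refine Summable.of_norm_bounded h3 ?_
    intro m
    refine (hggn m).trans ?_
    have := mul_le_mul_of_nonneg_left (hkn m) (abs_nonneg (m : ℝ))
    refine this.trans (le_of_eq ?_)
    ring
  have hev : ∀ x, HasSum (fun m => gg m x) ((∑' m, gg m) x) := by
    intro x
    exact (ContinuousMap.hasSum_apply hsum.hasSum x)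
  refine ⟨∑' m, gg m, ?_⟩
  intro x
  have t1 := (hev (α x)).sub (hev x)
  have t2 := hab 0 x
  have t3 := hba 0 x
  rw [← (Equiv.neg ℤ).hasSum_iff] at t3
  have t4 := t2.sub t3
  have t5 : (fun m : ℤ => c m a x * c (0 - m) b ((α ^ (-m)) x) - ((fun m : ℤ => c m b x * c (0 - m) a ((α ^ (-m)) x)) ∘ (Equiv.neg ℤ)) m) =
      fun m => gg m (α x) - gg m x := by
    funext m
    rw [← hgg m x]
    change c m a x * c (0 - m) b ((α ^ (-m)) x) - c (-m) b x * c (0 - -m) a ((α ^ (- -m)) x) =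
      g (-m) ((α ^ (-m)) x) * f m ((α ^ m) ((α ^ (-m)) x)) - g (-m) x * f m ((α ^ m) x)
    rw [zero_sub, zero_sub, neg_neg, hfa, hgb, TRC_zpow_neg_apply]
    ring
  rw [t5] at t4
  exact t4.unique t1

end Pool.Agent.CZ
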